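import Mathlib

/-!
# Mean values of Weyl sums over small boxes: common definitions

Functions with given spectrum, cells along monomial curves, decoupling inequalities, weighted
mean values.
-/

namespace Pool.Agent.DL

open MeasureTheory Finset

/-- `e(t) = exp(2 pi i t)` -/
noncomputable def ee (t : ℝ) : ℂ := Complex.exp (2 * Real.pi * t * Complex.I)

/-- the dot product -/
def dot {n : ℕ} (x ξ : Fin n → ℝ) : ℝ := ∑ i, x i * ξ i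

/-- `f` is a superposition of the characters `x ↦ e(x·ξ)` with `ξ ∈ U`. -/
def Spec {n : ℕ} (U : Set (Fin n → ℝ)) (f : (Fin n → ℝ) → ℂ) : Prop :=
  ∃ (Ω : Type) (_ : MeasurableSpace Ω) (μ : Measure Ω) (_ : IsFiniteMeasure μ)
    (c : Ω → ℂ) (ξ : Ω → Fin n → ℝ), Integrable c μ ∧ Measurable ξ ∧ (∀ ω, ξ ω ∈ U) ∧
      ∀ x, f x = ∫ ω, c ω * ee (dot x (ξ ω)) ∂μ

/-- the norm of `|f|²` in `L^s` -/
noncomputable def NN {n : ℕ} (s : ℕ) (f : (Fin n → ℝ) → ℂ) : ENNReal :=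
  (∫⁻ x, ‖f x‖ₑ ^ (2 * s)) ^ (1 / (s : ℝ))

/-- triangular numbers -/
def tri (n : ℕ) : ℕ := n * (n + 1) / 2

/-- The affine frame of the monomial curve `G(t) = (t ^ e j)_j` at `u`, scale `ρ`:
`P e u ρ lam = G(u) + ∑_i lam_i ρ^{i+1} G^{(i+1)}(u) / (i+1)!`. -/
noncomputable def P {n : ℕ} (e : Fin n → ℕ) (u ρ : ℝ) (lam : Fin n → ℝ) : Fin n → ℝ :=
  fun j => u ^ e j + ∑ i : Fin n, ((e j).choose ((i : ℕ) + 1) : ℝ) *
    u ^ (e j - ((i : ℕ) + 1)) * ρ ^ ((i : ℕ) + 1) * lam i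

/-- the linear part of `P` -/
noncomputable def PM {n : ℕ} (e : Fin n → ℕ) (u ρ : ℝ) : Matrix (Fin n) (Fin n) ℝ :=
  fun j i => ((e j).choose ((i : ℕ) + 1) : ℝ) * u ^ (e j - ((i : ℕ) + 1)) * ρ ^ ((i : ℕ) + 1)

/-- the cube -/
def box (n : ℕ) (C : ℝ) : Set (Fin n → ℝ) := {lam | ∀ i, |lam i| ≤ C}

/-- the cell of the arc `[u, u + ρ]` with fatness `C` -/
def cell {n : ℕ} (e : Fin n → ℕ) (u ρ C : ℝ) : Set (Fin n → ℝ) := P e u ρ '' box n C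

/-- the exponents of the moment curve -/
def mom (n : ℕ) : Fin n → ℕ := fun j => (j : ℕ) + 1

/-- Decoupling inequality with constant `D` for the sets `W 0, ..., W (m-1)` -/
def DecIneq {n : ℕ} (s : ℕ) (W : ℕ → Set (Fin n → ℝ)) (m : ℕ) (D : ℝ) : Prop :=
  ∀ f : ℕ → (Fin n → ℝ) → ℂ, (∀ j : ℕ, j < m → Spec (W j) (f j)) →
    NN s (fun x => ∑ j ∈ range m, f j x) ≤
      ENNReal.ofReal D * ∑ j ∈ range m, NN s (f j)

/-- Decoupling for the arc `[u, u + σ]` of the monomial curve, cut into `2 ^ N` equal pieces -/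
def DecOn {n : ℕ} (s : ℕ) (e : Fin n → ℕ) (C u σ : ℝ) (N : ℕ) (D : ℝ) : Prop :=
  DecIneq s (fun j => cell e (u + j * (σ / 2 ^ N)) (σ / 2 ^ N) C) (2 ^ N) D

/-- The decoupling theorem for the moment curve in `R^n` -/
def DecThm (n : ℕ) : Prop :=
  ∀ C : ℝ, 1 ≤ C → ∀ ε : ℝ, 0 < ε → ∃ K : ℝ, 0 < K ∧ ∀ N : ℕ,
    DecOn (tri n) (mom n) C 0 1 N (K * 2 ^ (ε * N))

/-- The decoupling theorem for the monomial curves in `R^n`, away from `0` -/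
def CurveThm (n : ℕ) : Prop :=
  ∀ e : Fin n → ℕ, Function.Injective e → (∀ j, 1 ≤ e j) → ∀ C : ℝ, 1 ≤ C →
    ∀ ε : ℝ, 0 < ε → ∃ K : ℝ, 0 < K ∧ ∀ u σ : ℝ, 0 < σ → σ ≤ 1 →
      (∀ v, u ≤ v → v ≤ u + σ → 1 / 4 ≤ |v| ∧ |v| ≤ 4) →
        ∀ N : ℕ, DecOn (tri n) e C u σ N (K * 2 ^ (ε * N))

/-- A bilinear inequality with exponents `2 a`, `2 b` -/
def BilIneq {n : ℕ} (s a b : ℕ) (W W' : ℕ → Set (Fin n → ℝ)) (m m' : ℕ) (M : ℝ) : Prop :=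
  ∀ f g : ℕ → (Fin n → ℝ) → ℂ,
    (∀ j : ℕ, j < m → Spec (W j) (f j)) → (∀ j : ℕ, j < m' → Spec (W' j) (g j)) →
    ∫⁻ x, ‖∑ j ∈ range m, f j x‖ₑ ^ (2 * a) * ‖∑ j ∈ range m', g j x‖ₑ ^ (2 * b) ≤
      ENNReal.ofReal M * (∑ j ∈ range m, NN s (f j)) ^ a * (∑ j ∈ range m', NN s (g j)) ^ b

/-- The asymmetric bilinear inequality: intervals `I = [t, t + 2^{-A}]`, `I' = [t', t' + 2^{-B}]`
in a common unit interval, with distance at least `1/4`, pieces of length `2^{-N}`. -/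
def Bil (k n : ℕ) (C : ℝ) (A B N : ℕ) (M : ℝ) : Prop :=
  ∀ t t' : ℝ, t + (1 / 2) ^ A ≤ t' + 1 → t' + (1 / 2) ^ B ≤ t + 1 →
    (t' + (1 / 2) ^ B + 1 / 4 ≤ t ∨ t + (1 / 2) ^ A + 1 / 4 ≤ t') →
    BilIneq (tri k) (tri n) (tri k - tri n)
      (fun j => cell (mom k) (t + j * (1 / 2) ^ N) ((1 / 2) ^ N) C)
      (fun j => cell (mom k) (t' + j * (1 / 2) ^ N) ((1 / 2) ^ N) C)
      (2 ^ (N - A)) (2 ^ (N - B)) M

/-- `sin(πx)/(πx)` -/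
noncomputable def sc (x : ℝ) : ℝ := Real.sinc (Real.pi * x)

/-- the Fourier transform of `sc ^ p` (a B-spline) -/
noncomputable def spl (p : ℕ) (ξ : ℝ) : ℝ := ∫ u : ℝ, sc u ^ p * Real.cos (2 * Real.pi * u * ξ)

/-! ### Weighted mean values -/

/-- exponential sum with the exponents `e` -/
noncomputable def SS {m : ℕ} (e : Fin m → ℕ) (S : Finset ℕ) (a : ℕ → ℂ) (x : Fin m → ℝ) : ℂ :=
  ∑ n ∈ S, a n * ee (∑ i, x i * (n : ℝ) ^ e i)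

/-- the cutoff -/
noncomputable def Psi {m : ℕ} (b : Fin m → ℝ) (x : Fin m → ℝ) : ℝ := ∏ i, sc (b i * x i)

/-- the weighted mean value -/
noncomputable def QQ {m : ℕ} (s : ℕ) (e : Fin m → ℕ) (b : Fin m → ℝ) (S : Finset ℕ)
    (a : ℕ → ℂ) : ENNReal :=
  ∫⁻ x, ‖SS e S a x * (Psi b x : ℂ)‖ₑ ^ (2 * s)

/-- the exponents `1, ..., r, k+r+1, ..., k+m` -/
def ex (k r : ℕ) (m : ℕ) : Fin m → ℕ := fun i => if (i : ℕ) < r then (i : ℕ) + 1 else k + i + 1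

/-- the scales: `1/R` for the first `r` coordinates, `L` for the others -/
noncomputable def bb (L R : ℝ) (r m : ℕ) : Fin m → ℝ := fun i => if (i : ℕ) < r then 1 / R else L

/-- the elements of `S` with `u < n / N ≤ v` -/
noncomputable def cut (S : Finset ℕ) (N : ℕ) (u v : ℝ) : Finset ℕ :=
  S.filter (fun n => u * N < n ∧ (n : ℝ) ≤ v * N)

end Pool.Agent.DL
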