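import Pool.Agent.Helper3.DL.MainC

/-!
# Mean values of Weyl sums over small boxes: the theorem
-/

namespace Pool.Agent.DL.Main

open MeasureTheory Finset

theorem ceil_rhoD (d : ℕ) (hd : 4 ≤ d) : ((⌈3 * (d : ℝ) ^ 2 / 4⌉ : ℤ) : ℝ) - 1 = rhoD d := by
  have h16 : 16 ≤ d ^ 2 := by nlinarith
  set n : ℕ := (3 * d ^ 2 + 3) / 4 with hn
  have h1 : 4 * n ≤ 3 * d ^ 2 + 3 := Nat.mul_div_le _ _
  have h2 : 3 * d ^ 2 ≤ 4 * n := by omega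
  have h1' : 4 * (n : ℝ) ≤ 3 * (d : ℝ) ^ 2 + 3 := by exact_mod_cast h1
  have h2' : 3 * (d : ℝ) ^ 2 ≤ 4 * (n : ℝ) := by exact_mod_cast h2
  have hc : ⌈3 * (d : ℝ) ^ 2 / 4⌉ = (n : ℤ) := by
    rw [Int.ceil_eq_iff]
    push_cast
    constructor <;> linarith
  have h3 : 1 ≤ n := by omega
  rw [hc]
  unfold rhoD
  rw [← hn, Nat.cast_sub h3]
  push_cast
  ring

theorem weyl_local_mean (hstar : StarStmt) (d : ℕ) (hd : 4 ≤ d) (s : ℝ) (hs : 0 < s) (ε : ℝ) (hε : 0 < ε) :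
    ∃ N₀ : ℕ, ∀ N : ℕ, N₀ ≤ N → ∀ δ : ℝ, 0 < δ → δ < 1 → ∀ a : ℕ → ℂ,
      ∫⁻ x in Set.Icc (0 : Fin d → ℝ) (fun _ => δ),
        ‖SS (fun i : Fin d => (i : ℕ) + 1) (Icc 1 N) a x‖ₑ ^ (2 * s) ≤
        ENNReal.ofReal (δ ^ (((d : ℝ) + 1) / 2) * (∑ j ∈ Icc 1 N, ‖a j‖ ^ 2) ^ s *
          (1 + (N : ℝ) ^ (s - (rhoD d : ℝ) / 2)) * (N : ℝ) ^ ε) := by
  obtain ⟨K, hK, hmain⟩ := main_bound hstar d hd (ε / 2) (by positivity)
  have hρ0 : (0 : ℝ) < rhoD d := by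
    have : (11 : ℝ) ≤ rhoD d := by exact_mod_cast rhoD_pos d hd
    linarith
  have hd' : (4 : ℝ) ≤ d := by exact_mod_cast hd
  -- the choice of `N₀`
  have htend : Filter.Tendsto (fun N : ℕ => (N : ℝ) ^ (ε / 2)) Filter.atTop Filter.atTop :=
    (tendsto_rpow_atTop (by positivity : 0 < ε / 2)).comp tendsto_natCast_atTop_atTop
  obtain ⟨N₁, hN₁⟩ := Filter.eventually_atTop.mp (htend.eventually_ge_atTop K)
  refine ⟨max N₁ 1, fun N hN δ hδ hδ1 a => ?_⟩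
  have hNK : K ≤ (N : ℝ) ^ (ε / 2) := hN₁ N (le_trans (le_max_left _ _) hN)
  have hN1' : 1 ≤ N := le_trans (le_max_right _ _) hN
  have hN0 : (0 : ℝ) < N := by exact_mod_cast hN1'
  have hN1 : (1 : ℝ) ≤ N := by exact_mod_cast hN1'
  have hKN : K * (N : ℝ) ^ (ε / 2) ≤ (N : ℝ) ^ ε := by
    calc K * (N : ℝ) ^ (ε / 2) ≤ (N : ℝ) ^ (ε / 2) * (N : ℝ) ^ (ε / 2) := by gcongr
      _ = (N : ℝ) ^ ε := by
        rw [← Real.rpow_add hN0]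
        congr 1
        ring
  have hm := hmain N δ hδ hδ1 a
  set A : ℝ := ∑ j ∈ Icc 1 N, ‖a j‖ ^ 2 with hAdef
  have hA : 0 ≤ A := Finset.sum_nonneg fun _ _ => by positivity
  have hNs : 0 ≤ (N : ℝ) ^ (s - (rhoD d : ℝ) / 2) := by positivity
  rcases le_or_gt (rhoD d : ℝ) (2 * s) with hc | hc
  · refine (upg _ (Icc 1 N) a _ N (by simp) hρ0.le hc).trans ?_
    refine (mul_le_mul' le_rfl hm).trans ?_
    rw [← ENNReal.ofReal_mul (by positivity)]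
    refine ENNReal.ofReal_le_ofReal ?_
    have e1 : A ^ ((2 * s - rhoD d) / 2) * A ^ ((rhoD d : ℝ) / 2) = A ^ s := by
      rw [← Real.rpow_add_of_nonneg hA (by linarith) (by positivity)]
      congr 1
      ring
    have e2 : (2 * s - (rhoD d : ℝ)) / 2 = s - (rhoD d : ℝ) / 2 := by ring
    calc (N : ℝ) ^ ((2 * s - rhoD d) / 2) * A ^ ((2 * s - rhoD d) / 2) *
          (K * (N : ℝ) ^ (ε / 2) * δ ^ (((d : ℝ) + 1) / 2) * A ^ ((rhoD d : ℝ) / 2)) =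
          δ ^ (((d : ℝ) + 1) / 2) * (A ^ ((2 * s - rhoD d) / 2) * A ^ ((rhoD d : ℝ) / 2)) *
            (N : ℝ) ^ ((2 * s - rhoD d) / 2) * (K * (N : ℝ) ^ (ε / 2)) := by ring
      _ = δ ^ (((d : ℝ) + 1) / 2) * A ^ s * (N : ℝ) ^ (s - (rhoD d : ℝ) / 2) *
            (K * (N : ℝ) ^ (ε / 2)) := by rw [e1, e2]
      _ ≤ δ ^ (((d : ℝ) + 1) / 2) * A ^ s * (1 + (N : ℝ) ^ (s - (rhoD d : ℝ) / 2)) *
            (N : ℝ) ^ ε := by
          gcongr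
          linarith
  · refine (dng _ (Icc 1 N) a (by positivity) hc.le hδ (by positivity) hm).trans ?_
    refine ENNReal.ofReal_le_ofReal ?_
    set θ : ℝ := 2 * s / rhoD d with hθ
    have hθ0 : 0 < θ := by positivity
    have hθ1 : θ ≤ 1 := (div_le_one hρ0).mpr hc.le
    have hθq : (rhoD d : ℝ) / 2 * θ = s := by rw [hθ]; field_simp
    have e1 : (K * (N : ℝ) ^ (ε / 2) * δ ^ (((d : ℝ) + 1) / 2) * A ^ ((rhoD d : ℝ) / 2)) ^ θ =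
        (K * (N : ℝ) ^ (ε / 2)) ^ θ * δ ^ ((((d : ℝ) + 1) / 2) * θ) * A ^ s := by
      rw [Real.mul_rpow (by positivity) (by positivity), Real.mul_rpow (by positivity)
        (by positivity), ← Real.rpow_mul hδ.le, ← Real.rpow_mul hA, hθq]
    have e2 : (K * (N : ℝ) ^ (ε / 2)) ^ θ ≤ (N : ℝ) ^ ε := by
      calc (K * (N : ℝ) ^ (ε / 2)) ^ θ ≤ ((N : ℝ) ^ ε) ^ θ := by gcongr
        _ ≤ ((N : ℝ) ^ ε) ^ (1 : ℝ) :=
          Real.rpow_le_rpow_of_exponent_le (Real.one_le_rpow hN1 hε.le) hθ1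
        _ = (N : ℝ) ^ ε := Real.rpow_one _
    have e3 : δ ^ ((((d : ℝ) + 1) / 2) * θ) * δ ^ ((d : ℝ) * (1 - θ)) ≤
        δ ^ (((d : ℝ) + 1) / 2) := by
      rw [← Real.rpow_add hδ]
      apply Real.rpow_le_rpow_of_exponent_ge hδ hδ1.le
      nlinarith
    rw [e1]
    calc (K * (N : ℝ) ^ (ε / 2)) ^ θ * δ ^ ((((d : ℝ) + 1) / 2) * θ) * A ^ s *
          δ ^ ((d : ℝ) * (1 - θ)) = (δ ^ ((((d : ℝ) + 1) / 2) * θ) * δ ^ ((d : ℝ) * (1 - θ))) *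
            A ^ s * (K * (N : ℝ) ^ (ε / 2)) ^ θ := by ring
      _ ≤ δ ^ (((d : ℝ) + 1) / 2) * A ^ s * (N : ℝ) ^ ε := by gcongr
      _ = δ ^ (((d : ℝ) + 1) / 2) * A ^ s * 1 * (N : ℝ) ^ ε := by ring
      _ ≤ δ ^ (((d : ℝ) + 1) / 2) * A ^ s * (1 + (N : ℝ) ^ (s - (rhoD d : ℝ) / 2)) *
            (N : ℝ) ^ ε := by
          gcongr
          linarith

theorem final (hstar : StarStmt) (d : ℕ) (hd : 4 ≤ d) (s : ℝ) (hs : 0 < s) (ε : ℝ) (hε : 0 < ε) :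
    ∃ N₀ : ℕ, ∀ N : ℕ, N₀ ≤ N → ∀ δ : ℝ, 0 < δ → δ < 1 → ∀ a : ℕ → ℂ,
      ∫ x in Set.Icc (0 : Fin d → ℝ) (fun _ => δ),
        ‖∑ j ∈ Icc 1 N, a j * Complex.exp (2 * Real.pi * Complex.I *
          ((∑ i : Fin d, x i * (j : ℝ) ^ ((i : ℕ) + 1) : ℝ) : ℂ))‖ ^ (2 * s) ≤
        δ ^ (((d : ℝ) + 1) / 2) * (∑ j ∈ Icc 1 N, ‖a j‖ ^ 2) ^ s *
          (1 + (N : ℝ) ^ (s - ((⌈3 * (d : ℝ) ^ 2 / 4⌉ : ℝ) - 1) / 2)) * (N : ℝ) ^ ε := by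
  obtain ⟨N₀, h⟩ := weyl_local_mean hstar d hd s hs ε hε
  refine ⟨N₀, fun N hN δ hδ hδ1 a => ?_⟩
  have hA : 0 ≤ ∑ j ∈ Icc 1 N, ‖a j‖ ^ 2 := Finset.sum_nonneg fun _ _ => by positivity
  have hSS : ∀ x : Fin d → ℝ, ∑ j ∈ Icc 1 N, a j * Complex.exp (2 * Real.pi * Complex.I *
      ((∑ i : Fin d, x i * (j : ℝ) ^ ((i : ℕ) + 1) : ℝ) : ℂ)) =
      SS (fun i : Fin d => (i : ℕ) + 1) (Icc 1 N) a x := by
    intro x
    unfold SS ee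
    refine Finset.sum_congr rfl fun j _ => ?_
    congr 2
    ring
  simp only [hSS]
  rw [ceil_rhoD d hd]
  rw [integral_eq_lintegral_of_nonneg_ae (Filter.Eventually.of_forall fun x => by positivity)
    (((continuous_SS _ _ a).norm.rpow_const fun x => Or.inr (by positivity)).aestronglyMeasurable)]
  refine ENNReal.toReal_le_of_le_ofReal (by positivity) ?_
  refine le_trans (le_of_eq ?_) (h N hN δ hδ hδ1 a)
  refine lintegral_congr fun x => ?_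
  rw [← ofReal_norm, ENNReal.ofReal_rpow_of_nonneg (norm_nonneg _) (by positivity)]

end Pool.Agent.DL.Main
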