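import Pool.Agent.Helper13.DL.DL7
import Pool.Agent.Helper16.DL.BilA
import Pool.Agent.Helper16.DL.StarReal
import Pool.Agent.Helper19.DL.Mean
import Pool.Agent.Helper22.DL.DecOfBil
import Pool.Agent.Helper64.DL.StarOf
import Pool.Agent.Helper69.DL.Curve
import Pool.Agent.Helper72.DL.Iteration
import Pool.Agent.Helper90.DL.Transfer
import Pool.Agent.Helper97.DL.One
import Pool.Agent.Helper3.DL.MainD

/-!
# Decoupling for the moment curve and for monomial curves, from the key bilinear lemma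
-/

namespace Pool.Agent.DL

open MeasureTheory Finset

/-- the statement of the key bilinear lemma -/
def BilKeyStmt : Prop := ∀ (k n : ℕ), 1 ≤ n → n < k → CurveThm n → ∀ C : ℝ, 1 ≤ C →
    ∀ ε : ℝ, 0 < ε → ∃ K : ℝ, 0 < K ∧ ∀ A A' B N : ℕ, A ≤ A' → A' ≤ N → B ≤ N →
      n * A' ≤ (k - n + 1) * B → ∀ M : ℝ, 0 ≤ M → Bil k n C A' B N M →
        Bil k n C A B N (K * 2 ^ (ε * N) * M)

theorem decoupling_of (hkey : BilKeyStmt) : ∀ (n : ℕ), 1 ≤ n → DecThm n := by
  intro n
  induction n using Nat.strong_induction_on with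
  | _ n ih =>
    intro hn
    rcases Nat.lt_or_ge 1 n with h1 | h1
    · intro C hC ε hε
      have h := iteration n h1 (fun N D => DecOn (tri n) (mom n) C 0 1 N D)
        (fun i A B N M => Bil n i C A B N M)
        (fun N D D' hD h => DecIneq.mono h (fun _ _ => subset_rfl) hD)
        (fun i A B N M M' hM h => Bil.mono h hM)
        ?_ ?_ ?_ ?_ ?_ ?_ ?_ ε hε
      · exact h
      · intro N
        have : 1 ≤ tri n := by
          unfold tri
          have : 2 ≤ n * (n + 1) := by nlinarith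
          omega
        have h2 := dec_trivial this (fun j => cell (mom n) (0 + j * (1 / 2 ^ N)) (1 / 2 ^ N) C) (2 ^ N)
        unfold DecOn
        push_cast at h2
        exact h2
      · intro i hi hik ε' hε'
        exact hkey n i hi hik (curve_of_dec i hi (ih i hik hi)) C hC ε' hε'
      · intro i hi hik A B N M₁ M₂ _ _ h1 h2 hb1 hb2
        exact bil_holder n i hi hik C A B N M₁ M₂ h1 h2 hb1 hb2
      · intro A B N D _ hB hD h
        exact bil_zero n hn C A B N hB D hD h
      · intro i hi hik N Mf hM h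
        exact dec_of_bil n i hi hik C hC N Mf hM h
      · intro i hi hik A A' B B' N M hA hA' hB hB' hM h
        exact bil_split n i hn hik.le C A A' B B' N hA hA' hB hB' M hM h
      · intro i hi hik A B N M _ _ hM h1 h2
        exact bil_base n i hi hik C A B N M hM h1 h2
    · have : n = 1 := by omega
      subst this
      exact dec_one

theorem curve_of_key (hkey : BilKeyStmt) (n : ℕ) (hn : 1 ≤ n) : CurveThm n :=
  curve_of_dec n hn (decoupling_of hkey n hn)

theorem star_of_key (hkey : BilKeyStmt) : Main.StarStmt := by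
  intro m k hm ε hε
  have hs : 1 ≤ tri m := by
    unfold tri
    have : 2 ≤ m * (m + 1) := by nlinarith
    omega
  exact star_of m k (fun b hb e S a => QQ_abs hs e b hb S a) ε
    (star_real_of m k hm (curve_of_key hkey m hm) ε hε)

theorem final_of_key (hkey : BilKeyStmt) (d : ℕ) (hd : 4 ≤ d) (s : ℝ) (hs : 0 < s) (ε : ℝ)
    (hε : 0 < ε) :
    ∃ N₀ : ℕ, ∀ N : ℕ, N₀ ≤ N → ∀ δ : ℝ, 0 < δ → δ < 1 → ∀ a : ℕ → ℂ,
      ∫ x in Set.Icc (0 : Fin d → ℝ) (fun _ => δ),
        ‖∑ j ∈ Icc 1 N, a j * Complex.exp (2 * Real.pi * Complex.I *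
          ((∑ i : Fin d, x i * (j : ℝ) ^ ((i : ℕ) + 1) : ℝ) : ℂ))‖ ^ (2 * s) ≤
        δ ^ (((d : ℝ) + 1) / 2) * (∑ j ∈ Icc 1 N, ‖a j‖ ^ 2) ^ s *
          (1 + (N : ℝ) ^ (s - ((⌈3 * (d : ℝ) ^ 2 / 4⌉ : ℝ) - 1) / 2)) * (N : ℝ) ^ ε :=
  Main.final (star_of_key hkey) d hd s hs ε hε

end Pool.Agent.DL
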