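import Pool.Agent.Helper3.DL.Defs

/-!
# Mean values of Weyl sums over small boxes: slicing, covering and Hoelder
-/

namespace Pool.Agent.DL.Main

open MeasureTheory Finset

theorem norm_ee (t : ℝ) : ‖ee t‖ = 1 := by
  unfold ee
  rw [show (2 * (Real.pi : ℂ) * (t : ℂ) * Complex.I) = ((2 * Real.pi * t : ℝ) : ℂ) * Complex.I by
    push_cast; ring]
  exact Complex.norm_exp_ofReal_mul_I _

theorem ee_add (s t : ℝ) : ee (s + t) = ee s * ee t := by
  unfold ee
  rw [← Complex.exp_add]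
  congr 1
  push_cast
  ring

theorem continuous_ee : Continuous ee := by
  unfold ee
  fun_prop

theorem continuous_SS {m : ℕ} (e : Fin m → ℕ) (S : Finset ℕ) (a : ℕ → ℂ) :
    Continuous (SS e S a) := by
  unfold SS
  refine continuous_finsetSum _ fun n _ => ?_
  refine continuous_const.mul (continuous_ee.comp ?_)
  refine continuous_finsetSum _ fun i _ => ?_
  exact (continuous_apply i).mul continuous_const

theorem measurable_SS {m : ℕ} (e : Fin m → ℕ) (S : Finset ℕ) (a : ℕ → ℂ) (q : ℕ) :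
    Measurable (fun x => ‖SS e S a x‖ₑ ^ q) :=
  ((continuous_SS e S a).measurable.enorm).pow_const q

/-- translation of the argument changes the coefficients by unimodular factors -/
theorem SS_shift {m : ℕ} (e : Fin m → ℕ) (S : Finset ℕ) (a : ℕ → ℂ) (y : Fin m → ℝ) :
    ∃ a' : ℕ → ℂ, (∀ n, ‖a' n‖ = ‖a n‖) ∧ ∀ x, SS e S a (y + x) = SS e S a' x := by
  refine ⟨fun n => a n * ee (∑ i, y i * (n : ℝ) ^ e i), fun n => ?_, fun x => ?_⟩
  · rw [norm_mul, norm_ee, mul_one]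
  · unfold SS
    refine Finset.sum_congr rfl fun n _ => ?_
    rw [mul_assoc, ← ee_add, ← Finset.sum_add_distrib]
    congr 2
    refine Finset.sum_congr rfl fun i _ => ?_
    simp only [Pi.add_apply]
    ring

/-- the trivial bound -/
theorem SS_bound {m : ℕ} (e : Fin m → ℕ) (S : Finset ℕ) (a : ℕ → ℂ) (x : Fin m → ℝ) :
    ‖SS e S a x‖ ≤ Real.sqrt (S.card * ∑ j ∈ S, ‖a j‖ ^ 2) := by
  unfold SS
  calc ‖∑ n ∈ S, a n * ee (∑ i, x i * (n : ℝ) ^ e i)‖ ≤
      ∑ n ∈ S, ‖a n * ee (∑ i, x i * (n : ℝ) ^ e i)‖ := norm_sum_le _ _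
    _ = ∑ n ∈ S, ‖a n‖ := by
      refine Finset.sum_congr rfl fun n _ => ?_
      rw [norm_mul, norm_ee, mul_one]
    _ ≤ Real.sqrt (S.card * ∑ j ∈ S, ‖a j‖ ^ 2) := by
      refine Real.le_sqrt_of_sq_le ?_
      exact sq_sum_le_card_mul_sum_sq

theorem volume_cube (m : ℕ) {δ : ℝ} (hδ : 0 ≤ δ) :
    volume (Set.Icc (0 : Fin m → ℝ) (fun _ => δ)) = ENNReal.ofReal (δ ^ m) := by
  rw [Real.volume_Icc_pi]
  simp only [Pi.zero_apply, sub_zero, Finset.prod_const, Finset.card_univ, Fintype.card_fin]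
  rw [ENNReal.ofReal_pow hδ]

/-- Hoelder's inequality on a set of finite measure -/
theorem holder_meas {X : Type} [MeasurableSpace X] (μ : Measure X) (F : X → ENNReal)
    (hF : Measurable F) (E : Set X) (ρ q : ℝ) (hρ : 0 < ρ) (h : ρ ≤ q) :
    ∫⁻ x in E, F x ^ ρ ∂μ ≤ (∫⁻ x in E, F x ^ q ∂μ) ^ (ρ / q) * (μ E) ^ (1 - ρ / q) := by
  have hq : 0 < q := lt_of_lt_of_le hρ h
  have h1 : ρ / q ≤ 1 := (div_le_one hq).mpr h
  have h0 : 0 ≤ ρ / q := by positivity
  have := ENNReal.lintegral_mul_norm_pow_le (μ := μ.restrict E) (f := fun x => F x ^ q)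
    (g := fun _ => 1) (hF.pow_const q).aemeasurable aemeasurable_const h0
    (by linarith : (0 : ℝ) ≤ 1 - ρ / q) (by ring)
  simp only [ENNReal.one_rpow, mul_one, lintegral_const, Measure.restrict_apply MeasurableSet.univ,
    Set.univ_inter, one_mul] at this
  refine le_trans (le_of_eq ?_) this
  refine lintegral_congr fun x => ?_
  rw [← ENNReal.rpow_mul]
  congr 1
  field_simp

/-- the first `k` variables only modulate the coefficients -/
theorem slice_le (k m : ℕ) (S : Finset ℕ) (a : ℕ → ℂ) (q : ℕ) {δ : ℝ} (hδ : 0 ≤ δ)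
    (B : ENNReal) (hB : ∀ a' : ℕ → ℂ, (∀ n, ‖a' n‖ = ‖a n‖) →
      ∫⁻ x in Set.Icc (0 : Fin m → ℝ) (fun _ => δ),
        ‖SS (fun i : Fin m => k + i + 1) S a' x‖ₑ ^ q ≤ B) :
    ∫⁻ x in Set.Icc (0 : Fin (k + m) → ℝ) (fun _ => δ),
        ‖SS (fun i : Fin (k + m) => i + 1) S a x‖ₑ ^ q ≤ ENNReal.ofReal (δ ^ k) * B := by
  classical
  set T : ((Fin k → ℝ) × (Fin m → ℝ)) ≃ᵐ (Fin (k + m) → ℝ) :=
    (MeasurableEquiv.sumPiEquivProdPi (fun _ : Fin k ⊕ Fin m => ℝ)).symm.trans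
      (MeasurableEquiv.piCongrLeft (fun _ : Fin (k + m) => ℝ) finSumFinEquiv) with hT
  have hTm : MeasurePreserving T volume volume := by
    have h1 := volume_measurePreserving_sumPiEquivProdPi_symm (fun _ : Fin k ⊕ Fin m => ℝ)
    have h2 := volume_measurePreserving_piCongrLeft (fun _ : Fin (k + m) => ℝ)
      (finSumFinEquiv (m := k) (n := m))
    exact h2.comp h1
  have hTl : ∀ (p : (Fin k → ℝ) × (Fin m → ℝ)) (i : Fin k), T p (Fin.castAdd m i) = p.1 i := by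
    intro p i
    have := MeasurableEquiv.piCongrLeft_apply_apply (finSumFinEquiv (m := k) (n := m))
      (β := fun _ => ℝ) ((MeasurableEquiv.sumPiEquivProdPi (fun _ : Fin k ⊕ Fin m => ℝ)).symm p)
      (Sum.inl i)
    exact this
  have hTr : ∀ (p : (Fin k → ℝ) × (Fin m → ℝ)) (i : Fin m), T p (Fin.natAdd k i) = p.2 i := by
    intro p i
    have := MeasurableEquiv.piCongrLeft_apply_apply (finSumFinEquiv (m := k) (n := m))
      (β := fun _ => ℝ) ((MeasurableEquiv.sumPiEquivProdPi (fun _ : Fin k ⊕ Fin m => ℝ)).symm p)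
      (Sum.inr i)
    exact this
  have hpre : T ⁻¹' (Set.Icc (0 : Fin (k + m) → ℝ) (fun _ => δ)) =
      (Set.Icc (0 : Fin k → ℝ) (fun _ => δ)) ×ˢ (Set.Icc (0 : Fin m → ℝ) (fun _ => δ)) := by
    ext p
    simp only [Set.mem_preimage, Set.mem_Icc, Pi.le_def, Pi.zero_apply, Set.mem_prod]
    constructor
    · rintro ⟨h1, h2⟩
      refine ⟨⟨fun i => ?_, fun i => ?_⟩, ⟨fun i => ?_, fun i => ?_⟩⟩
      · rw [← hTl p i]; exact h1 _
      · rw [← hTl p i]; exact h2 _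
      · rw [← hTr p i]; exact h1 _
      · rw [← hTr p i]; exact h2 _
    · rintro ⟨⟨h1, h2⟩, ⟨h3, h4⟩⟩
      constructor
      · intro i
        refine Fin.addCases (fun i => ?_) (fun i => ?_) i
        · rw [hTl]; exact h1 _
        · rw [hTr]; exact h3 _
      · intro i
        refine Fin.addCases (fun i => ?_) (fun i => ?_) i
        · rw [hTl]; exact h2 _
        · rw [hTr]; exact h4 _
  have hSS : ∀ p : (Fin k → ℝ) × (Fin m → ℝ), SS (fun i : Fin (k + m) => (i : ℕ) + 1) S a (T p) =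
      SS (fun i : Fin m => k + i + 1) S
        (fun n => a n * ee (∑ i : Fin k, p.1 i * (n : ℝ) ^ ((i : ℕ) + 1))) p.2 := by
    intro p
    unfold SS
    refine Finset.sum_congr rfl fun n _ => ?_
    rw [mul_assoc, ← ee_add]
    congr 2
    rw [Fin.sum_univ_add]
    congr 1
    · refine Finset.sum_congr rfl fun i _ => ?_
      rw [hTl]
      simp
    · refine Finset.sum_congr rfl fun i _ => ?_
      rw [hTr]
      simp
  rw [← hTm.setLIntegral_comp_preimage_emb T.measurableEmbedding, hpre]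
  rw [Measure.volume_eq_prod, setLIntegral_prod]
  · calc ∫⁻ x in Set.Icc (0 : Fin k → ℝ) (fun _ => δ), ∫⁻ y in Set.Icc (0 : Fin m → ℝ) (fun _ => δ),
          ‖SS (fun i : Fin (k + m) => (i : ℕ) + 1) S a (T (x, y))‖ₑ ^ q ≤
        ∫⁻ _ in Set.Icc (0 : Fin k → ℝ) (fun _ => δ), B := by
          refine lintegral_mono fun x => ?_
          simp only [hSS]
          refine hB _ fun n => ?_
          rw [norm_mul, norm_ee, mul_one]
      _ = ENNReal.ofReal (δ ^ k) * B := by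
          rw [setLIntegral_const, volume_cube k hδ, mul_comm]
  · exact ((measurable_SS _ S a q).comp T.measurable).aemeasurable

/-- covering a cube by small cubes -/
theorem cover_le (m : ℕ) (e : Fin m → ℕ) (S : Finset ℕ) (a : ℕ → ℂ) (q : ℕ) (N M : ℕ)
    (hN : 1 ≤ N) {δ : ℝ} (hM : δ ≤ M * (N : ℝ)⁻¹) (hM1 : 1 ≤ M)
    (B : ENNReal) (hB : ∀ a' : ℕ → ℂ, (∀ n, ‖a' n‖ = ‖a n‖) →
      ∫⁻ x in Set.Icc (0 : Fin m → ℝ) (fun _ => (N : ℝ)⁻¹), ‖SS e S a' x‖ₑ ^ q ≤ B) :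
    ∫⁻ x in Set.Icc (0 : Fin m → ℝ) (fun _ => δ), ‖SS e S a x‖ₑ ^ q ≤ (M : ENNReal) ^ m * B := by
  classical
  have hN0 : (0 : ℝ) < N := by exact_mod_cast hN
  set V : (Fin m → Fin M) → (Fin m → ℝ) := fun v i => (v i : ℕ) * (N : ℝ)⁻¹ with hV
  have hsub : Set.Icc (0 : Fin m → ℝ) (fun _ => δ) ⊆
      ⋃ v : Fin m → Fin M, (fun x => V v + x) '' Set.Icc (0 : Fin m → ℝ) (fun _ => (N : ℝ)⁻¹) := by
    intro x hx
    simp only [Set.mem_Icc, Pi.le_def, Pi.zero_apply] at hx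
    obtain ⟨h1, h2⟩ := hx
    rw [Set.mem_iUnion]
    have hlt : ∀ i, min ⌊x i * N⌋₊ (M - 1) < M := fun i =>
      lt_of_le_of_lt (min_le_right _ _) (by omega)
    refine ⟨fun i => ⟨min ⌊x i * N⌋₊ (M - 1), hlt i⟩, ?_⟩
    refine ⟨x - V (fun i => ⟨min ⌊x i * N⌋₊ (M - 1), hlt i⟩), ?_, by simp⟩
    simp only [Set.mem_Icc, Pi.le_def, Pi.zero_apply, Pi.sub_apply, hV]
    constructor
    · intro i
      rw [sub_nonneg]
      have h3 : ((min ⌊x i * N⌋₊ (M - 1) : ℕ) : ℝ) ≤ x i * N := by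
        refine le_trans ?_ (Nat.floor_le (mul_nonneg (h1 i) hN0.le))
        exact_mod_cast min_le_left _ _
      calc ((min ⌊x i * N⌋₊ (M - 1) : ℕ) : ℝ) * (N : ℝ)⁻¹ ≤ x i * N * (N : ℝ)⁻¹ := by gcongr
        _ = x i := by field_simp
    · intro i
      rw [sub_le_iff_le_add]
      have h3 : x i * N ≤ 1 + ((min ⌊x i * N⌋₊ (M - 1) : ℕ) : ℝ) := by
        rcases le_total ⌊x i * N⌋₊ (M - 1) with h4 | h4
        · rw [min_eq_left h4, add_comm]
          exact (Nat.lt_floor_add_one _).le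
        · rw [min_eq_right h4]
          have h5 : x i * N ≤ M := by
            calc x i * N ≤ δ * N := by gcongr; exact h2 i
              _ ≤ (M * (N : ℝ)⁻¹) * N := by gcongr
              _ = M := by field_simp
          rw [Nat.cast_sub hM1]
          push_cast
          linarith
      calc x i = x i * N * (N : ℝ)⁻¹ := by field_simp
        _ ≤ (1 + ((min ⌊x i * N⌋₊ (M - 1) : ℕ) : ℝ)) * (N : ℝ)⁻¹ := by gcongr
        _ = (N : ℝ)⁻¹ + ((min ⌊x i * N⌋₊ (M - 1) : ℕ) : ℝ) * (N : ℝ)⁻¹ := by ring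
  calc ∫⁻ x in Set.Icc (0 : Fin m → ℝ) (fun _ => δ), ‖SS e S a x‖ₑ ^ q ≤
      ∫⁻ x in ⋃ v : Fin m → Fin M, (fun x => V v + x) ''
        Set.Icc (0 : Fin m → ℝ) (fun _ => (N : ℝ)⁻¹), ‖SS e S a x‖ₑ ^ q :=
        lintegral_mono_set hsub
    _ ≤ ∑' v : Fin m → Fin M, ∫⁻ x in (fun x => V v + x) ''
        Set.Icc (0 : Fin m → ℝ) (fun _ => (N : ℝ)⁻¹), ‖SS e S a x‖ₑ ^ q :=
        lintegral_iUnion_le _ _
    _ ≤ ∑' v : Fin m → Fin M, B := by
        refine ENNReal.tsum_le_tsum fun v => ?_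
        obtain ⟨a', ha', hS⟩ := SS_shift e S a (V v)
        rw [← (measurePreserving_add_left volume (V v)).setLIntegral_comp_emb
          (measurableEmbedding_addLeft (V v))]
        simp only [hS]
        exact hB a' ha'
    _ = (M : ENNReal) ^ m * B := by
        rw [tsum_fintype]
        simp

end Pool.Agent.DL.Main
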