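import Pool.Agent.Helper3.DL.MainA

/-!
# Mean values of Weyl sums over small boxes: dyadic blocks
-/

namespace Pool.Agent.DL.Main

open MeasureTheory Finset

/-- `ρ(d) = ⌈3 d² / 4⌉ - 1` -/
def rhoD (d : ℕ) : ℕ := (3 * d ^ 2 + 3) / 4 - 1

/-- The mean value over the small box `[0, N^{-k}]^m` for dyadic blocks. -/
def StarStmt : Prop := ∀ m k : ℕ, 1 ≤ m → ∀ ε : ℝ, 0 < ε → ∃ K : ℝ, 0 < K ∧
    ∀ N : ℕ, 1 ≤ N → ∀ a : ℕ → ℂ,
      ∫⁻ x in Set.Icc (0 : Fin m → ℝ) (fun _ => ((N : ℝ) ^ k)⁻¹),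
        ‖SS (fun i : Fin m => k + i + 1) ((range (N + 1)).filter (fun j => N < 2 * j)) a x‖ₑ ^
          (2 * tri m) ≤ ENNReal.ofReal (K * (N : ℝ) ^ (ε - k * m) *
          (∑ j ∈ (range (N + 1)).filter (fun j => N < 2 * j), ‖a j‖ ^ 2) ^ tri m)

/-- the dyadic block -/
def dy (N : ℕ) : Finset ℕ := (range (N + 1)).filter (fun j => N < 2 * j)

theorem card_dy (N : ℕ) : (dy N).card ≤ N := by
  have h : dy N ⊆ Icc 1 N := by
    intro j hj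
    simp only [dy, mem_filter, mem_range] at hj
    rw [mem_Icc]
    omega
  calc (dy N).card ≤ (Icc 1 N).card := card_le_card h
    _ = N := by simp

theorem num_le_one {N : ℕ} (hN : 1 ≤ N) {δ : ℝ} (hδ : 0 < δ) (k : ℕ) (h1 : 1 ≤ (N : ℝ) ^ (k + 1) * δ)
    (h2 : (N : ℝ) ^ k * δ ≤ 1) {x y : ℝ} (h3 : x - k * y ≤ 0) (h4 : x - (k + 1) * y ≤ 0) :
    (N : ℝ) ^ x * δ ^ y ≤ 1 := by
  have hN0 : (0 : ℝ) < N := by exact_mod_cast hN
  have hL : 0 ≤ Real.log N := Real.log_nonneg (by exact_mod_cast hN)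
  rw [Real.rpow_def_of_pos hN0, Real.rpow_def_of_pos hδ, ← Real.exp_add]
  rw [Real.exp_le_one_iff]
  have e1 : 0 ≤ (k + 1) * Real.log N + Real.log δ := by
    have := Real.log_nonneg h1
    rw [Real.log_mul (by positivity) hδ.ne', Real.log_pow] at this
    push_cast at this
    linarith
  have e2 : k * Real.log N + Real.log δ ≤ 0 := by
    have := Real.log_nonpos (by positivity) h2
    rw [Real.log_mul (by positivity) hδ.ne', Real.log_pow] at this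
    linarith
  rcases le_total 0 y with hy | hy
  · nlinarith [mul_nonneg hL (sub_nonneg.mpr (show x - k * y ≤ 0 from h3)),
      mul_nonneg hy (neg_nonneg.mpr e2)]
  · nlinarith [mul_nonneg hL (sub_nonneg.mpr (show x - (k + 1) * y ≤ 0 from h4)),
      mul_nonneg (neg_nonneg.mpr hy) e1]

theorem rhoD_lt (d : ℕ) (hd : 4 ≤ d) : 4 * rhoD d + 1 ≤ 3 * d ^ 2 := by
  unfold rhoD
  have : 16 ≤ d ^ 2 := by nlinarith
  omega

theorem rhoD_pos (d : ℕ) (hd : 4 ≤ d) : 11 ≤ rhoD d := by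
  unfold rhoD
  have : 16 ≤ d ^ 2 := by nlinarith
  omega

/-- raising the exponent -/
theorem upg {m : ℕ} (e : Fin m → ℕ) (S : Finset ℕ) (a : ℕ → ℂ) (E : Set (Fin m → ℝ)) (N : ℕ)
    (hS : S.card ≤ N) {ρ q : ℝ} (hq : 0 ≤ q) (h : q ≤ ρ) :
    ∫⁻ x in E, ‖SS e S a x‖ₑ ^ ρ ≤ ENNReal.ofReal ((N : ℝ) ^ ((ρ - q) / 2) *
      (∑ j ∈ S, ‖a j‖ ^ 2) ^ ((ρ - q) / 2)) * ∫⁻ x in E, ‖SS e S a x‖ₑ ^ q := by
  rw [← lintegral_const_mul _ (((continuous_SS e S a).measurable.enorm).pow_const q)]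
  refine lintegral_mono fun x => ?_
  have hA : 0 ≤ ∑ j ∈ S, ‖a j‖ ^ 2 := Finset.sum_nonneg fun _ _ => by positivity
  have h1 : ‖SS e S a x‖ ≤ Real.sqrt (N * ∑ j ∈ S, ‖a j‖ ^ 2) := by
    refine (SS_bound e S a x).trans (Real.sqrt_le_sqrt ?_)
    have : (S.card : ℝ) ≤ N := by exact_mod_cast hS
    gcongr
  have h2 : ‖SS e S a x‖ₑ ≤ ENNReal.ofReal (Real.sqrt (N * ∑ j ∈ S, ‖a j‖ ^ 2)) := by
    rw [← ofReal_norm]
    exact ENNReal.ofReal_le_ofReal h1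
  have h3 : ‖SS e S a x‖ₑ ^ (ρ - q) ≤ ENNReal.ofReal ((N : ℝ) ^ ((ρ - q) / 2) *
      (∑ j ∈ S, ‖a j‖ ^ 2) ^ ((ρ - q) / 2)) := by
    refine (ENNReal.rpow_le_rpow h2 (by linarith : (0 : ℝ) ≤ ρ - q)).trans (le_of_eq ?_)
    rw [ENNReal.ofReal_rpow_of_nonneg (Real.sqrt_nonneg _) (by linarith)]
    congr 1
    rw [Real.sqrt_eq_rpow, ← Real.rpow_mul (by positivity), ← Real.mul_rpow (by positivity) hA]
    congr 1
    ring
  calc ‖SS e S a x‖ₑ ^ ρ = ‖SS e S a x‖ₑ ^ (ρ - q) * ‖SS e S a x‖ₑ ^ q := by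
        rw [← ENNReal.rpow_add_of_nonneg _ _ (by linarith) hq]
        congr 1
        ring
    _ ≤ _ := by gcongr

/-- the trivial bound for the mean value -/
theorem triv_bound {m : ℕ} (e : Fin m → ℕ) (S : Finset ℕ) (a : ℕ → ℂ) (N : ℕ)
    (hS : S.card ≤ N) {ρ : ℝ} (h : 0 ≤ ρ) {δ : ℝ} (hδ : 0 ≤ δ) :
    ∫⁻ x in Set.Icc (0 : Fin m → ℝ) (fun _ => δ), ‖SS e S a x‖ₑ ^ ρ ≤
      ENNReal.ofReal ((N : ℝ) ^ (ρ / 2) * (∑ j ∈ S, ‖a j‖ ^ 2) ^ (ρ / 2) * δ ^ m) := by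
  have := upg e S a (Set.Icc (0 : Fin m → ℝ) (fun _ => δ)) N hS (le_refl (0 : ℝ)) h
  simp only [sub_zero, ENNReal.rpow_zero, lintegral_const, one_mul,
    Measure.restrict_apply MeasurableSet.univ, Set.univ_inter, volume_cube m hδ] at this
  refine this.trans (le_of_eq ?_)
  have hA : 0 ≤ ∑ j ∈ S, ‖a j‖ ^ 2 := Finset.sum_nonneg fun _ _ => by positivity
  rw [← ENNReal.ofReal_mul (by positivity)]

/-- lowering the exponent -/
theorem dng {m : ℕ} (e : Fin m → ℕ) (S : Finset ℕ) (a : ℕ → ℂ) {ρ q : ℝ} (hρ : 0 < ρ)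
    (h : ρ ≤ q) {δ : ℝ} (hδ : 0 < δ) {B : ℝ} (hB : 0 ≤ B)
    (hb : ∫⁻ x in Set.Icc (0 : Fin m → ℝ) (fun _ => δ), ‖SS e S a x‖ₑ ^ q ≤ ENNReal.ofReal B) :
    ∫⁻ x in Set.Icc (0 : Fin m → ℝ) (fun _ => δ), ‖SS e S a x‖ₑ ^ ρ ≤
      ENNReal.ofReal (B ^ (ρ / q) * δ ^ (m * (1 - ρ / q))) := by
  have hq : 0 < q := lt_of_lt_of_le hρ h
  have h1 : ρ / q ≤ 1 := (div_le_one hq).mpr h
  have h0 : 0 ≤ ρ / q := by positivity
  refine (holder_meas volume (fun x => ‖SS e S a x‖ₑ) (continuous_SS e S a).measurable.enorm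
    (Set.Icc (0 : Fin m → ℝ) (fun _ => δ)) ρ q hρ h).trans ?_
  rw [volume_cube m hδ.le]
  refine (mul_le_mul' (ENNReal.rpow_le_rpow hb h0) le_rfl).trans (le_of_eq ?_)
  rw [ENNReal.ofReal_rpow_of_nonneg hB h0, ENNReal.ofReal_rpow_of_nonneg (by positivity)
    (by linarith), ← ENNReal.ofReal_mul (by positivity)]
  congr 2
  rw [← Real.rpow_natCast, ← Real.rpow_mul hδ.le]

/-- the main case -/
theorem case_k (hstar : StarStmt) (k m : ℕ) (hk : 1 ≤ k) (hm : 1 ≤ m) (hd : 4 ≤ k + m) (ε : ℝ) (hε : 0 < ε) :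
    ∃ K : ℝ, 0 < K ∧ ∀ N : ℕ, 1 ≤ N → ∀ δ : ℝ, 0 < δ → 1 ≤ (N : ℝ) ^ (k + 1) * δ →
      (N : ℝ) ^ k * δ ≤ 1 → ∀ a : ℕ → ℂ,
      ∫⁻ x in Set.Icc (0 : Fin (k + m) → ℝ) (fun _ => δ),
        ‖SS (fun i : Fin (k + m) => (i : ℕ) + 1) (dy N) a x‖ₑ ^ (rhoD (k + m) : ℝ) ≤
        ENNReal.ofReal (K * (N : ℝ) ^ ε * δ ^ ((((k + m : ℕ) : ℝ) + 1) / 2) *
          (∑ j ∈ dy N, ‖a j‖ ^ 2) ^ ((rhoD (k + m) : ℝ) / 2)) := by
  obtain ⟨K, hK, hst⟩ := hstar m k hm ε hε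
  refine ⟨K + 1, by positivity, fun N hN δ hδ h1 h2 a => ?_⟩
  have hN0 : (0 : ℝ) < N := by exact_mod_cast hN
  have hN1 : (1 : ℝ) ≤ N := by exact_mod_cast hN
  set A : ℝ := ∑ j ∈ dy N, ‖a j‖ ^ 2 with hAdef
  have hA : 0 ≤ A := Finset.sum_nonneg fun _ _ => by positivity
  set ρ : ℕ := rhoD (k + m) with hρdef
  have hρ1 : 4 * ρ + 1 ≤ 3 * (k + m) ^ 2 := rhoD_lt _ hd
  have hρ0 : 11 ≤ ρ := rhoD_pos _ hd
  have hρ1' : 4 * (ρ : ℝ) + 1 ≤ 3 * ((k : ℝ) + m) ^ 2 := by exact_mod_cast hρ1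
  have hρ0' : (0 : ℝ) < ρ := by
    have : (11 : ℝ) ≤ ρ := by exact_mod_cast hρ0
    linarith
  have hk' : (1 : ℝ) ≤ k := by exact_mod_cast hk
  have hm' : (1 : ℝ) ≤ m := by exact_mod_cast hm
  have hd' : (4 : ℝ) ≤ k + m := by exact_mod_cast hd
  -- the bound for the exponent `q`
  have htri : 2 * tri m = m * (m + 1) := by
    unfold tri
    exact Nat.mul_div_cancel' (Nat.even_mul_succ_self m).two_dvd
  have htri' : (tri m : ℝ) = m * (m + 1) / 2 := by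
    have : (2 * tri m : ℝ) = m * (m + 1) := by exact_mod_cast htri
    linarith
  set q : ℝ := m * (m + 1) with hq
  have hq0 : 0 < q := by positivity
  have hH : ∫⁻ x in Set.Icc (0 : Fin (k + m) → ℝ) (fun _ => δ),
        ‖SS (fun i : Fin (k + m) => (i : ℕ) + 1) (dy N) a x‖ₑ ^ q ≤
        ENNReal.ofReal (δ ^ k * (K * (N : ℝ) ^ (ε - k * m) * A ^ (q / 2))) := by
    have h3 := slice_le k m (dy N) a (2 * tri m) hδ.le
      (ENNReal.ofReal (K * (N : ℝ) ^ (ε - k * m) * A ^ (q / 2))) (fun a' ha' => by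
        have hsub : Set.Icc (0 : Fin m → ℝ) (fun _ => δ) ⊆
            Set.Icc (0 : Fin m → ℝ) (fun _ => ((N : ℝ) ^ k)⁻¹) := by
          apply Set.Icc_subset_Icc le_rfl
          intro i
          rw [← one_div, le_div_iff₀ (by positivity)]
          linarith
        refine (lintegral_mono_set hsub).trans ((hst N hN a').trans (le_of_eq ?_))
        congr 2
        simp only [ha']
        rw [← Real.rpow_natCast, htri']
        rfl)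
    rw [← ENNReal.ofReal_mul (by positivity)] at h3
    refine le_trans (le_of_eq ?_) h3
    refine lintegral_congr fun x => ?_
    rw [← ENNReal.rpow_natCast]
    congr 1
    rw [hq]
    have : ((2 * tri m : ℕ) : ℝ) = m * (m + 1) := by exact_mod_cast htri
    rw [this]
  rcases le_total q ρ with hc | hc
  · -- subcase (i)
    refine (upg _ (dy N) a _ N (card_dy N) hq0.le hc).trans ?_
    refine (mul_le_mul' le_rfl hH).trans ?_
    rw [← ENNReal.ofReal_mul (by positivity)]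
    refine ENNReal.ofReal_le_ofReal ?_
    have hI1 : (ρ : ℝ) + 1 ≤ m ^ 2 + m * k + k ^ 2 := by
      have h5 : (4 * ρ + 1 : ℤ) ≤ 3 * ((k : ℤ) + m) ^ 2 := by exact_mod_cast hρ1
      have h6 : (ρ : ℤ) + 1 ≤ m ^ 2 + m * k + k ^ 2 := by
        have : (4 * ρ + 1 : ℤ) ≤ 4 * ((m : ℤ) ^ 2 + m * k + k ^ 2) := by
          nlinarith [sq_nonneg ((m : ℤ) - k)]
        omega
      exact_mod_cast h6
    have hI2 : (ρ : ℝ) + 1 ≤ m ^ 2 + m * k + k ^ 2 + m - k + 1 := by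
      have h5 : (4 * ρ + 1 : ℤ) ≤ 3 * ((k : ℤ) + m) ^ 2 := by exact_mod_cast hρ1
      have h6 : (ρ : ℤ) + 1 ≤ m ^ 2 + m * k + k ^ 2 + m - k + 1 := by
        have : (4 * ρ + 1 : ℤ) ≤ 4 * ((m : ℤ) ^ 2 + m * k + k ^ 2 + m - k + 1) := by
          nlinarith [sq_nonneg ((m : ℤ) - k + 2)]
        omega
      exact_mod_cast h6
    have key : (N : ℝ) ^ ((ρ - q) / 2 - k * m) * δ ^ ((k : ℝ) - ((k : ℝ) + m + 1) / 2) ≤ 1 := by
      refine num_le_one hN hδ k h1 h2 ?_ ?_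
      · rw [hq]
        nlinarith
      · rw [hq]
        nlinarith
    have e1 : A ^ ((ρ - q) / 2) * A ^ (q / 2) = A ^ ((ρ : ℝ) / 2) := by
      rw [← Real.rpow_add_of_nonneg hA (by linarith) (by positivity)]
      congr 1
      ring
    have e2 : (N : ℝ) ^ ((ρ - q) / 2) * (δ ^ k * (N : ℝ) ^ (ε - k * m)) =
        (N : ℝ) ^ ε * δ ^ ((((k + m : ℕ) : ℝ) + 1) / 2) *
          ((N : ℝ) ^ ((ρ - q) / 2 - k * m) * δ ^ ((k : ℝ) - ((k : ℝ) + m + 1) / 2)) := by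
      rw [← Real.rpow_natCast δ k]
      have : (N : ℝ) ^ ε * δ ^ ((((k + m : ℕ) : ℝ) + 1) / 2) *
          ((N : ℝ) ^ ((ρ - q) / 2 - k * m) * δ ^ ((k : ℝ) - ((k : ℝ) + m + 1) / 2)) =
          ((N : ℝ) ^ ε * (N : ℝ) ^ ((ρ - q) / 2 - k * m)) *
          (δ ^ ((((k + m : ℕ) : ℝ) + 1) / 2) * δ ^ ((k : ℝ) - ((k : ℝ) + m + 1) / 2)) := by ring
      rw [this, ← Real.rpow_add hN0, ← Real.rpow_add hδ]
      have : (N : ℝ) ^ ((ρ - q) / 2) * (δ ^ (k : ℝ) * (N : ℝ) ^ (ε - k * m)) =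
        ((N : ℝ) ^ ((ρ - q) / 2) * (N : ℝ) ^ (ε - k * m)) * δ ^ (k : ℝ) := by ring
      rw [this, ← Real.rpow_add hN0]
      push_cast
      congr 2 <;> ring
    calc (N : ℝ) ^ ((ρ - q) / 2) * A ^ ((ρ - q) / 2) *
          (δ ^ k * (K * (N : ℝ) ^ (ε - k * m) * A ^ (q / 2))) =
          K * ((N : ℝ) ^ ((ρ - q) / 2) * (δ ^ k * (N : ℝ) ^ (ε - k * m))) *
            (A ^ ((ρ - q) / 2) * A ^ (q / 2)) := by ring
      _ = K * ((N : ℝ) ^ ε * δ ^ ((((k + m : ℕ) : ℝ) + 1) / 2) *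
          ((N : ℝ) ^ ((ρ - q) / 2 - k * m) * δ ^ ((k : ℝ) - ((k : ℝ) + m + 1) / 2))) *
            A ^ ((ρ : ℝ) / 2) := by rw [e1, e2]
      _ ≤ K * ((N : ℝ) ^ ε * δ ^ ((((k + m : ℕ) : ℝ) + 1) / 2) * 1) * A ^ ((ρ : ℝ) / 2) := by
          gcongr
      _ ≤ (K + 1) * (N : ℝ) ^ ε * δ ^ ((((k + m : ℕ) : ℝ) + 1) / 2) * A ^ ((ρ : ℝ) / 2) := by
          rw [mul_one, ← mul_assoc]
          gcongr
          linarith
  · -- subcase (ii)
    refine (dng _ (dy N) a hρ0' hc hδ (by positivity) hH).trans ?_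
    refine ENNReal.ofReal_le_ofReal ?_
    set θ : ℝ := ρ / q with hθ
    have hθ0 : 0 < θ := by positivity
    have hθ1 : θ ≤ 1 := (div_le_one hq0).mpr hc
    have hθq : θ * q = ρ := by rw [hθ]; field_simp
    have key : (N : ℝ) ^ (-(k * m * θ)) * δ ^ (((k : ℝ) + m - 1) / 2 - m * θ) ≤ 1 := by
      refine num_le_one hN hδ k h1 h2 ?_ ?_
      · nlinarith
      · have h5 : 2 * (ρ : ℝ) ≤ (k + 1) * (k + m - 1) * (m + 1) := by
          have h6 : 2 * (ρ : ℝ) ≤ 2 * (k + m) * (k + m - 1) := by nlinarith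
          have h7 : 2 * ((k : ℝ) + m) ≤ (k + 1) * (m + 1) := by nlinarith
          nlinarith
        have h8 : 2 * (m * θ) ≤ (k + 1) * (k + m - 1) := by
          have h9 : 2 * (m * θ) * (m + 1) = 2 * ρ := by
            rw [← hθq, hq]; ring
          by_contra hcon
          push Not at hcon
          nlinarith
        nlinarith
    have e1 : (δ ^ k * (K * (N : ℝ) ^ (ε - k * m) * A ^ (q / 2))) ^ θ =
        δ ^ (k * θ) * (K ^ θ * (N : ℝ) ^ ((ε - k * m) * θ) * A ^ ((ρ : ℝ) / 2)) := by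
      rw [Real.mul_rpow (by positivity) (by positivity), Real.mul_rpow (by positivity)
        (by positivity), Real.mul_rpow (by positivity) (by positivity), ← Real.rpow_natCast δ k,
        ← Real.rpow_mul hδ.le, ← Real.rpow_mul hN0.le, ← Real.rpow_mul hA]
      congr 3
      rw [← hθq]
      ring
    have e2 : K ^ θ ≤ K + 1 := by
      rcases le_total K 1 with h | h
      · calc K ^ θ ≤ 1 := Real.rpow_le_one hK.le h hθ0.le
          _ ≤ K + 1 := by linarith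
      · calc K ^ θ ≤ K ^ (1 : ℝ) := Real.rpow_le_rpow_of_exponent_le h hθ1
          _ ≤ K + 1 := by rw [Real.rpow_one]; linarith
    have e3 : (N : ℝ) ^ ((ε - k * m) * θ) * (δ ^ (k * θ) * δ ^ (((k + m : ℕ) : ℝ) * (1 - θ))) =
        (N : ℝ) ^ (ε * θ) * δ ^ ((((k + m : ℕ) : ℝ) + 1) / 2) *
          ((N : ℝ) ^ (-(k * m * θ)) * δ ^ (((k : ℝ) + m - 1) / 2 - m * θ)) := by
      have : (N : ℝ) ^ (ε * θ) * δ ^ ((((k + m : ℕ) : ℝ) + 1) / 2) *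
          ((N : ℝ) ^ (-(k * m * θ)) * δ ^ (((k : ℝ) + m - 1) / 2 - m * θ)) =
          ((N : ℝ) ^ (ε * θ) * (N : ℝ) ^ (-(k * m * θ))) *
          (δ ^ ((((k + m : ℕ) : ℝ) + 1) / 2) * δ ^ (((k : ℝ) + m - 1) / 2 - m * θ)) := by ring
      rw [this, ← Real.rpow_add hN0, ← Real.rpow_add hδ, ← Real.rpow_add hδ]
      push_cast
      congr 2 <;> ring
    have e4 : (N : ℝ) ^ (ε * θ) ≤ (N : ℝ) ^ ε := by
      apply Real.rpow_le_rpow_of_exponent_le hN1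
      nlinarith
    rw [e1]
    calc δ ^ (k * θ) * (K ^ θ * (N : ℝ) ^ ((ε - k * m) * θ) * A ^ ((ρ : ℝ) / 2)) *
          δ ^ (((k + m : ℕ) : ℝ) * (1 - θ)) = K ^ θ * ((N : ℝ) ^ ((ε - k * m) * θ) *
            (δ ^ (k * θ) * δ ^ (((k + m : ℕ) : ℝ) * (1 - θ)))) * A ^ ((ρ : ℝ) / 2) := by ring
      _ = K ^ θ * ((N : ℝ) ^ (ε * θ) * δ ^ ((((k + m : ℕ) : ℝ) + 1) / 2) *
          ((N : ℝ) ^ (-(k * m * θ)) * δ ^ (((k : ℝ) + m - 1) / 2 - m * θ))) *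
            A ^ ((ρ : ℝ) / 2) := by rw [e3]
      _ ≤ (K + 1) * ((N : ℝ) ^ ε * δ ^ ((((k + m : ℕ) : ℝ) + 1) / 2) * 1) *
            A ^ ((ρ : ℝ) / 2) := by gcongr
      _ = (K + 1) * (N : ℝ) ^ ε * δ ^ ((((k + m : ℕ) : ℝ) + 1) / 2) * A ^ ((ρ : ℝ) / 2) := by
          ring

end Pool.Agent.DL.Main
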