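import Pool.Agent.Helper3.DL.MainB

/-!
# Mean values of Weyl sums over small boxes: the main bound
-/

namespace Pool.Agent.DL.Main

open MeasureTheory Finset

/-- large boxes -/
theorem case_0 (hstar : StarStmt) (m : ℕ) (hm : 3 ≤ m) (ε : ℝ) (hε : 0 < ε) :
    ∃ K : ℝ, 0 < K ∧ ∀ N : ℕ, 1 ≤ N → ∀ δ : ℝ, 0 < δ → δ ≤ 1 → 1 ≤ (N : ℝ) * δ → ∀ a : ℕ → ℂ,
      ∫⁻ x in Set.Icc (0 : Fin (1 + m) → ℝ) (fun _ => δ),
        ‖SS (fun i : Fin (1 + m) => (i : ℕ) + 1) (dy N) a x‖ₑ ^ (rhoD (1 + m) : ℝ) ≤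
        ENNReal.ofReal (K * (N : ℝ) ^ ε * δ ^ ((((1 + m : ℕ) : ℝ) + 1) / 2) *
          (∑ j ∈ dy N, ‖a j‖ ^ 2) ^ ((rhoD (1 + m) : ℝ) / 2)) := by
  obtain ⟨K, hK, hst⟩ := hstar m 1 (by omega) ε hε
  refine ⟨2 ^ m * K + 1, by positivity, fun N hN δ hδ hδ1 h1 a => ?_⟩
  have hN0 : (0 : ℝ) < N := by exact_mod_cast hN
  have hN1 : (1 : ℝ) ≤ N := by exact_mod_cast hN
  set A : ℝ := ∑ j ∈ dy N, ‖a j‖ ^ 2 with hAdef
  have hA : 0 ≤ A := Finset.sum_nonneg fun _ _ => by positivity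
  set ρ : ℕ := rhoD (1 + m) with hρdef
  have hρ1 : 4 * ρ + 1 ≤ 3 * (1 + m) ^ 2 := rhoD_lt _ (by omega)
  have hρ0 : 11 ≤ ρ := rhoD_pos _ (by omega)
  have hρ1' : 4 * (ρ : ℝ) + 1 ≤ 3 * (1 + (m : ℝ)) ^ 2 := by exact_mod_cast hρ1
  have hρ0' : (0 : ℝ) < ρ := by
    have : (11 : ℝ) ≤ ρ := by exact_mod_cast hρ0
    linarith
  have hm' : (3 : ℝ) ≤ m := by exact_mod_cast hm
  have htri : 2 * tri m = m * (m + 1) := by
    unfold tri
    exact Nat.mul_div_cancel' (Nat.even_mul_succ_self m).two_dvd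
  have htri' : (tri m : ℝ) = m * (m + 1) / 2 := by
    have : (2 * tri m : ℝ) = m * (m + 1) := by exact_mod_cast htri
    linarith
  set q : ℝ := m * (m + 1) with hq
  have hq0 : 0 < q := by positivity
  have hc : (ρ : ℝ) ≤ q := by rw [hq]; nlinarith
  set M : ℕ := ⌈δ * N⌉₊ with hM
  have hM1 : 1 ≤ M := by
    rw [hM, Nat.one_le_ceil_iff]
    positivity
  have hM2 : δ ≤ M * (N : ℝ)⁻¹ := by
    rw [← div_eq_mul_inv, le_div_iff₀ hN0]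
    exact Nat.le_ceil _
  have hM3 : (M : ℝ) ≤ 2 * (δ * N) := by
    have := (Nat.ceil_lt_add_one (show 0 ≤ δ * N by positivity)).le
    rw [← hM] at this
    linarith
  have hH : ∫⁻ x in Set.Icc (0 : Fin (1 + m) → ℝ) (fun _ => δ),
        ‖SS (fun i : Fin (1 + m) => (i : ℕ) + 1) (dy N) a x‖ₑ ^ q ≤
        ENNReal.ofReal (2 ^ m * K * δ ^ (1 + m) * (N : ℝ) ^ ε * A ^ (q / 2)) := by
    have h3 := slice_le 1 m (dy N) a (2 * tri m) hδ.le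
      (ENNReal.ofReal ((2 * (δ * N)) ^ m * (K * (N : ℝ) ^ (ε - m) * A ^ (q / 2)))) (fun a' ha' => by
        have hcov := cover_le m (fun i : Fin m => 1 + (i : ℕ) + 1) (dy N) a' (2 * tri m) N M hN hM2
          hM1 (ENNReal.ofReal (K * (N : ℝ) ^ (ε - m) * A ^ (q / 2)))
        refine (hcov (fun a'' ha'' => ?_)).trans ?_
        · have h4 := hst N hN a''
          simp only [pow_one, Nat.cast_one, one_mul] at h4
          refine h4.trans (le_of_eq ?_)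
          congr 2
          simp only [ha'', ha']
          rw [← Real.rpow_natCast, htri']
          rfl
        · rw [ENNReal.ofReal_mul (p := (2 * (δ * N)) ^ m) (by positivity),
            ENNReal.ofReal_pow (by positivity)]
          have hM4 : (M : ENNReal) ≤ ENNReal.ofReal (2 * (δ * N)) := by
            rw [← ENNReal.ofReal_natCast]
            exact ENNReal.ofReal_le_ofReal hM3
          gcongr)
    rw [← ENNReal.ofReal_mul (by positivity)] at h3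
    have e1 : δ ^ 1 * ((2 * (δ * N)) ^ m * (K * (N : ℝ) ^ (ε - m) * A ^ (q / 2))) =
        2 ^ m * K * δ ^ (1 + m) * (N : ℝ) ^ ε * A ^ (q / 2) := by
      rw [Real.rpow_sub hN0, Real.rpow_natCast, mul_pow, mul_pow, pow_add]
      field_simp
    rw [e1] at h3
    refine le_trans (le_of_eq ?_) h3
    refine lintegral_congr fun x => ?_
    rw [← ENNReal.rpow_natCast]
    congr 1
    rw [hq]
    have : ((2 * tri m : ℕ) : ℝ) = m * (m + 1) := by exact_mod_cast htri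
    rw [this]
  refine (dng _ (dy N) a hρ0' hc hδ (by positivity) hH).trans ?_
  refine ENNReal.ofReal_le_ofReal ?_
  set θ : ℝ := ρ / q with hθ
  have hθ0 : 0 < θ := by positivity
  have hθ1 : θ ≤ 1 := (div_le_one hq0).mpr hc
  have hθq : θ * q = ρ := by rw [hθ]; field_simp
  have e2 : (2 ^ m * K) ^ θ ≤ 2 ^ m * K + 1 := by
    rcases le_total (2 ^ m * K) 1 with h | h
    · calc (2 ^ m * K) ^ θ ≤ 1 := Real.rpow_le_one (by positivity) h hθ0.le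
        _ ≤ 2 ^ m * K + 1 := by linarith [show 0 < 2 ^ m * K by positivity]
    · calc (2 ^ m * K) ^ θ ≤ (2 ^ m * K) ^ (1 : ℝ) := Real.rpow_le_rpow_of_exponent_le h hθ1
        _ ≤ 2 ^ m * K + 1 := by rw [Real.rpow_one]; linarith
  have e4 : (N : ℝ) ^ (ε * θ) ≤ (N : ℝ) ^ ε := by
    apply Real.rpow_le_rpow_of_exponent_le hN1
    nlinarith
  have e5 : δ ^ (((1 + m : ℕ) : ℝ) * θ) * δ ^ (((1 + m : ℕ) : ℝ) * (1 - θ)) ≤
      δ ^ ((((1 + m : ℕ) : ℝ) + 1) / 2) := by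
    rw [← Real.rpow_add hδ]
    apply Real.rpow_le_rpow_of_exponent_ge hδ hδ1
    push_cast
    nlinarith
  have e1 : (2 ^ m * K * δ ^ (1 + m) * (N : ℝ) ^ ε * A ^ (q / 2)) ^ θ =
      (2 ^ m * K) ^ θ * δ ^ (((1 + m : ℕ) : ℝ) * θ) * (N : ℝ) ^ (ε * θ) * A ^ ((ρ : ℝ) / 2) := by
    rw [Real.mul_rpow (by positivity) (by positivity), Real.mul_rpow (by positivity)
      (by positivity), Real.mul_rpow (by positivity) (by positivity), ← Real.rpow_natCast δ,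
      ← Real.rpow_mul hδ.le, ← Real.rpow_mul hN0.le, ← Real.rpow_mul hA]
    congr 2
    rw [← hθq]
    ring
  rw [e1]
  calc (2 ^ m * K) ^ θ * δ ^ (((1 + m : ℕ) : ℝ) * θ) * (N : ℝ) ^ (ε * θ) * A ^ ((ρ : ℝ) / 2) *
        δ ^ (((1 + m : ℕ) : ℝ) * (1 - θ)) = (2 ^ m * K) ^ θ * (N : ℝ) ^ (ε * θ) *
          (δ ^ (((1 + m : ℕ) : ℝ) * θ) * δ ^ (((1 + m : ℕ) : ℝ) * (1 - θ))) *
            A ^ ((ρ : ℝ) / 2) := by ring
    _ ≤ (2 ^ m * K + 1) * (N : ℝ) ^ ε * δ ^ ((((1 + m : ℕ) : ℝ) + 1) / 2) *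
            A ^ ((ρ : ℝ) / 2) := by gcongr

/-- tiny boxes -/
theorem case_triv (d : ℕ) (hd : 4 ≤ d) (ε : ℝ) (hε : 0 < ε) (N : ℕ) (hN : 1 ≤ N) (δ : ℝ)
    (hδ : 0 < δ) (h1 : (N : ℝ) ^ d * δ ≤ 1) (a : ℕ → ℂ) :
      ∫⁻ x in Set.Icc (0 : Fin d → ℝ) (fun _ => δ),
        ‖SS (fun i : Fin d => (i : ℕ) + 1) (dy N) a x‖ₑ ^ (rhoD d : ℝ) ≤
        ENNReal.ofReal (1 * (N : ℝ) ^ ε * δ ^ (((d : ℝ) + 1) / 2) *
          (∑ j ∈ dy N, ‖a j‖ ^ 2) ^ ((rhoD d : ℝ) / 2)) := by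
  have hN0 : (0 : ℝ) < N := by exact_mod_cast hN
  have hN1 : (1 : ℝ) ≤ N := by exact_mod_cast hN
  have hA : 0 ≤ ∑ j ∈ dy N, ‖a j‖ ^ 2 := Finset.sum_nonneg fun _ _ => by positivity
  refine (triv_bound _ (dy N) a N (card_dy N) (by positivity) hδ.le).trans ?_
  refine ENNReal.ofReal_le_ofReal ?_
  have hρ1 : 4 * (rhoD d : ℝ) + 1 ≤ 3 * (d : ℝ) ^ 2 := by exact_mod_cast rhoD_lt d hd
  have hd' : (4 : ℝ) ≤ d := by exact_mod_cast hd
  have key : (N : ℝ) ^ ((rhoD d : ℝ) / 2) * δ ^ (((d : ℝ) - 1) / 2) ≤ 1 := by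
    calc (N : ℝ) ^ ((rhoD d : ℝ) / 2) * δ ^ (((d : ℝ) - 1) / 2) ≤
        (N : ℝ) ^ ((d : ℝ) * (((d : ℝ) - 1) / 2)) * δ ^ (((d : ℝ) - 1) / 2) := by
          gcongr
          nlinarith
      _ = ((N : ℝ) ^ d * δ) ^ (((d : ℝ) - 1) / 2) := by
          rw [Real.rpow_mul hN0.le, Real.rpow_natCast, Real.mul_rpow (by positivity) hδ.le]
      _ ≤ 1 := Real.rpow_le_one (by positivity) h1 (by linarith)
  have e1 : δ ^ d = δ ^ (((d : ℝ) + 1) / 2) * δ ^ (((d : ℝ) - 1) / 2) := by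
    rw [← Real.rpow_add hδ, ← Real.rpow_natCast]
    congr 1
    ring
  have e2 : (1 : ℝ) ≤ (N : ℝ) ^ ε := Real.one_le_rpow hN1 hε.le
  calc (N : ℝ) ^ ((rhoD d : ℝ) / 2) * (∑ j ∈ dy N, ‖a j‖ ^ 2) ^ ((rhoD d : ℝ) / 2) * δ ^ d =
      1 * ((N : ℝ) ^ ((rhoD d : ℝ) / 2) * δ ^ (((d : ℝ) - 1) / 2)) * δ ^ (((d : ℝ) + 1) / 2) *
        (∑ j ∈ dy N, ‖a j‖ ^ 2) ^ ((rhoD d : ℝ) / 2) := by rw [e1]; ring
    _ ≤ (N : ℝ) ^ ε * 1 * δ ^ (((d : ℝ) + 1) / 2) *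
        (∑ j ∈ dy N, ‖a j‖ ^ 2) ^ ((rhoD d : ℝ) / 2) := by gcongr
    _ = _ := by ring

theorem case_k' (hstar : StarStmt) (d k : ℕ) (hk : 1 ≤ k) (hkd : k + 1 ≤ d) (hd : 4 ≤ d) (ε : ℝ) (hε : 0 < ε) :
    ∃ K : ℝ, 0 < K ∧ ∀ N : ℕ, 1 ≤ N → ∀ δ : ℝ, 0 < δ → 1 ≤ (N : ℝ) ^ (k + 1) * δ →
      (N : ℝ) ^ k * δ ≤ 1 → ∀ a : ℕ → ℂ,
      ∫⁻ x in Set.Icc (0 : Fin d → ℝ) (fun _ => δ),
        ‖SS (fun i : Fin d => (i : ℕ) + 1) (dy N) a x‖ₑ ^ (rhoD d : ℝ) ≤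
        ENNReal.ofReal (K * (N : ℝ) ^ ε * δ ^ (((d : ℝ) + 1) / 2) *
          (∑ j ∈ dy N, ‖a j‖ ^ 2) ^ ((rhoD d : ℝ) / 2)) := by
  obtain ⟨m, rfl⟩ := Nat.exists_eq_add_of_le (show k ≤ d by omega)
  exact case_k hstar k m hk (by omega) hd ε hε

theorem case_0' (hstar : StarStmt) (d : ℕ) (hd : 4 ≤ d) (ε : ℝ) (hε : 0 < ε) :
    ∃ K : ℝ, 0 < K ∧ ∀ N : ℕ, 1 ≤ N → ∀ δ : ℝ, 0 < δ → δ ≤ 1 → 1 ≤ (N : ℝ) * δ → ∀ a : ℕ → ℂ,
      ∫⁻ x in Set.Icc (0 : Fin d → ℝ) (fun _ => δ),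
        ‖SS (fun i : Fin d => (i : ℕ) + 1) (dy N) a x‖ₑ ^ (rhoD d : ℝ) ≤
        ENNReal.ofReal (K * (N : ℝ) ^ ε * δ ^ (((d : ℝ) + 1) / 2) *
          (∑ j ∈ dy N, ‖a j‖ ^ 2) ^ ((rhoD d : ℝ) / 2)) := by
  obtain ⟨m, rfl⟩ := Nat.exists_eq_add_of_le (show 1 ≤ d by omega)
  exact case_0 hstar m (by omega) ε hε

/-- dyadic blocks -/
theorem dyadic (hstar : StarStmt) (d : ℕ) (hd : 4 ≤ d) (ε : ℝ) (hε : 0 < ε) :
    ∃ K : ℝ, 0 < K ∧ ∀ N : ℕ, 1 ≤ N → ∀ δ : ℝ, 0 < δ → δ < 1 → ∀ a : ℕ → ℂ,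
      ∫⁻ x in Set.Icc (0 : Fin d → ℝ) (fun _ => δ),
        ‖SS (fun i : Fin d => (i : ℕ) + 1) (dy N) a x‖ₑ ^ (rhoD d : ℝ) ≤
        ENNReal.ofReal (K * (N : ℝ) ^ ε * δ ^ (((d : ℝ) + 1) / 2) *
          (∑ j ∈ dy N, ‖a j‖ ^ 2) ^ ((rhoD d : ℝ) / 2)) := by
  classical
  obtain ⟨K₀, hK₀, h0⟩ := case_0' hstar d hd ε hε
  have hk : ∀ k : ℕ, ∃ K : ℝ, 0 < K ∧ (1 ≤ k → k + 1 ≤ d → ∀ N : ℕ, 1 ≤ N → ∀ δ : ℝ, 0 < δ →
      1 ≤ (N : ℝ) ^ (k + 1) * δ → (N : ℝ) ^ k * δ ≤ 1 → ∀ a : ℕ → ℂ,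
      ∫⁻ x in Set.Icc (0 : Fin d → ℝ) (fun _ => δ),
        ‖SS (fun i : Fin d => (i : ℕ) + 1) (dy N) a x‖ₑ ^ (rhoD d : ℝ) ≤
        ENNReal.ofReal (K * (N : ℝ) ^ ε * δ ^ (((d : ℝ) + 1) / 2) *
          (∑ j ∈ dy N, ‖a j‖ ^ 2) ^ ((rhoD d : ℝ) / 2))) := by
    intro k
    by_cases h : 1 ≤ k ∧ k + 1 ≤ d
    · obtain ⟨K, hK, h'⟩ := case_k' hstar d k h.1 h.2 hd ε hε
      exact ⟨K, hK, fun _ _ => h'⟩
    · exact ⟨1, one_pos, fun h1 h2 => absurd ⟨h1, h2⟩ h⟩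
  choose Kf hKf hkf using hk
  have hsum : 0 ≤ ∑ k ∈ range d, Kf k := Finset.sum_nonneg fun k _ => (hKf k).le
  refine ⟨1 + K₀ + ∑ k ∈ range d, Kf k, by positivity, fun N hN δ hδ hδ1 a => ?_⟩
  have hA : 0 ≤ ∑ j ∈ dy N, ‖a j‖ ^ 2 := Finset.sum_nonneg fun _ _ => by positivity
  have mono : ∀ K' : ℝ, K' ≤ 1 + K₀ + ∑ k ∈ range d, Kf k →
      ENNReal.ofReal (K' * (N : ℝ) ^ ε * δ ^ (((d : ℝ) + 1) / 2) *
          (∑ j ∈ dy N, ‖a j‖ ^ 2) ^ ((rhoD d : ℝ) / 2)) ≤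
      ENNReal.ofReal ((1 + K₀ + ∑ k ∈ range d, Kf k) * (N : ℝ) ^ ε * δ ^ (((d : ℝ) + 1) / 2) *
          (∑ j ∈ dy N, ‖a j‖ ^ 2) ^ ((rhoD d : ℝ) / 2)) := by
    intro K' hK'
    refine ENNReal.ofReal_le_ofReal ?_
    gcongr
  by_cases hc : (N : ℝ) ^ d * δ ≤ 1
  · exact (case_triv d hd ε hε N hN δ hδ hc a).trans (mono 1 (by linarith))
  · have hex : ∃ j : ℕ, 1 ≤ (N : ℝ) ^ j * δ := ⟨d, by linarith [not_le.mp hc]⟩
    set j := Nat.find hex with hj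
    have hj1 : 1 ≤ (N : ℝ) ^ j * δ := Nat.find_spec hex
    have hj0 : j ≠ 0 := by
      intro h
      rw [h, pow_zero, one_mul] at hj1
      linarith
    have hjd : j ≤ d := Nat.find_min' hex (by linarith [not_le.mp hc])
    obtain ⟨k, hk⟩ := Nat.exists_eq_succ_of_ne_zero hj0
    have hj2 : (N : ℝ) ^ k * δ ≤ 1 := by
      have := Nat.find_min hex (show k < j by omega)
      linarith [not_le.mp this]
    rw [hk] at hj1
    rcases Nat.eq_zero_or_pos k with h0k | h0k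
    · subst h0k
      refine (h0 N hN δ hδ hδ1.le (by simpa using hj1) a).trans (mono K₀ (by linarith))
    · refine (hkf k h0k (by omega) N hN δ hδ hj1 hj2 a).trans (mono (Kf k) ?_)
      have : Kf k ≤ ∑ k ∈ range d, Kf k :=
        Finset.single_le_sum (f := Kf) (fun i _ => (hKf i).le) (by rw [mem_range]; omega)
      linarith

/-- a weighted triangle inequality -/
theorem add_pow_weighted (n : ℕ) (hn : 1 ≤ n) (r : ℝ) (hr : 1 < r) : ∃ c : ℝ, 0 < c ∧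
    ∀ x y : ℝ, 0 ≤ x → 0 ≤ y → (x + y) ^ n ≤ c * x ^ n + r * y ^ n := by
  set η : ℝ := r ^ (1 / (n : ℝ)) - 1 with hη
  have hn' : (0 : ℝ) < n := by exact_mod_cast hn
  have hη0 : 0 < η := by
    rw [hη, sub_pos]
    exact Real.one_lt_rpow hr (by positivity)
  have hη1 : (1 + η) ^ n = r := by
    rw [hη, add_sub_cancel, ← Real.rpow_natCast, ← Real.rpow_mul (by linarith)]
    rw [one_div, inv_mul_cancel₀ hn'.ne', Real.rpow_one]
  refine ⟨(1 + η⁻¹) ^ n, by positivity, fun x y hx hy => ?_⟩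
  rcases le_total x (η * y) with h | h
  · calc (x + y) ^ n ≤ ((1 + η) * y) ^ n := by
          gcongr
          linarith
      _ = r * y ^ n := by rw [mul_pow, hη1]
      _ ≤ (1 + η⁻¹) ^ n * x ^ n + r * y ^ n := by
          have : 0 ≤ (1 + η⁻¹) ^ n * x ^ n := by positivity
          linarith
  · have h' : y ≤ η⁻¹ * x := by
      rw [inv_mul_eq_div, le_div_iff₀ hη0]
      linarith
    calc (x + y) ^ n ≤ ((1 + η⁻¹) * x) ^ n := by
          gcongr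
          linarith
      _ = (1 + η⁻¹) ^ n * x ^ n := by rw [mul_pow]
      _ ≤ (1 + η⁻¹) ^ n * x ^ n + r * y ^ n := by
          have : 0 ≤ r * y ^ n := by positivity
          linarith

theorem Icc_split (N : ℕ) : Disjoint (dy N) (Icc 1 (N / 2)) ∧
    Icc 1 N = dy N ∪ Icc 1 (N / 2) := by
  constructor
  · rw [Finset.disjoint_left]
    intro j hj hj'
    simp only [dy, mem_filter, mem_range, mem_Icc] at hj hj'
    omega
  · ext j
    simp only [dy, mem_union, mem_filter, mem_range, mem_Icc]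
    omega

/-- the bound at the critical exponent -/
theorem main_bound (hstar : StarStmt) (d : ℕ) (hd : 4 ≤ d) (ε : ℝ) (hε : 0 < ε) : ∃ K : ℝ, 0 < K ∧
    ∀ N : ℕ, ∀ δ : ℝ, 0 < δ → δ < 1 → ∀ a : ℕ → ℂ,
      ∫⁻ x in Set.Icc (0 : Fin d → ℝ) (fun _ => δ),
        ‖SS (fun i : Fin d => (i : ℕ) + 1) (Icc 1 N) a x‖ₑ ^ (rhoD d : ℝ) ≤
        ENNReal.ofReal (K * (N : ℝ) ^ ε * δ ^ (((d : ℝ) + 1) / 2) *
          (∑ j ∈ Icc 1 N, ‖a j‖ ^ 2) ^ ((rhoD d : ℝ) / 2)) := by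
  obtain ⟨K, hK, hdy⟩ := dyadic hstar d hd ε hε
  have hρ : 11 ≤ rhoD d := rhoD_pos d hd
  obtain ⟨c, hc, hcw⟩ := add_pow_weighted (rhoD d) (by omega) ((2 : ℝ) ^ (ε / 2))
    (Real.one_lt_rpow (by norm_num) (by positivity))
  have hlt : (2 : ℝ) ^ (-(ε / 2)) < 1 :=
    Real.rpow_lt_one_of_one_lt_of_neg (by norm_num) (by linarith)
  have hpos : 0 < 1 - (2 : ℝ) ^ (-(ε / 2)) := by linarith
  set C : ℝ := c * K / (1 - (2 : ℝ) ^ (-(ε / 2))) with hC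
  have hC0 : 0 < C := by positivity
  have hCeq : c * K + (2 : ℝ) ^ (-(ε / 2)) * C = C := by
    rw [hC]
    field_simp
    ring
  refine ⟨C, hC0, fun N => ?_⟩
  induction N using Nat.strong_induction_on with
  | _ N ih =>
    intro δ hδ hδ1 a
    rcases Nat.eq_zero_or_pos N with h0 | hN
    · subst h0
      have : ∀ x, ‖SS (fun i : Fin d => (i : ℕ) + 1) (Icc 1 0) a x‖ₑ ^ (rhoD d : ℝ) = 0 := by
        intro x
        have hne' : rhoD d ≠ 0 := by omega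
        simp [SS, hne']
      simp only [this, lintegral_zero]
      exact zero_le
    · have hN0 : (0 : ℝ) < N := by exact_mod_cast hN
      obtain ⟨hdis, hun⟩ := Icc_split N
      have ih' := ih (N / 2) (Nat.div_lt_self hN (by norm_num)) δ hδ hδ1 a
      have hdy' := hdy N hN δ hδ hδ1 a
      set A : ℝ := ∑ j ∈ Icc 1 N, ‖a j‖ ^ 2 with hA
      have hA0 : 0 ≤ A := Finset.sum_nonneg fun _ _ => by positivity
      have hA1 : ∑ j ∈ dy N, ‖a j‖ ^ 2 ≤ A := by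
        rw [hA, hun]
        exact Finset.sum_le_sum_of_subset_of_nonneg subset_union_left fun _ _ _ => by positivity
      have hA2 : ∑ j ∈ Icc 1 (N / 2), ‖a j‖ ^ 2 ≤ A := by
        rw [hA, hun]
        exact Finset.sum_le_sum_of_subset_of_nonneg subset_union_right fun _ _ _ => by positivity
      have hpt : ∀ x, ‖SS (fun i : Fin d => (i : ℕ) + 1) (Icc 1 N) a x‖ₑ ^ (rhoD d : ℝ) ≤
          ENNReal.ofReal c * ‖SS (fun i : Fin d => (i : ℕ) + 1) (dy N) a x‖ₑ ^ (rhoD d : ℝ) +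
          ENNReal.ofReal ((2 : ℝ) ^ (ε / 2)) *
            ‖SS (fun i : Fin d => (i : ℕ) + 1) (Icc 1 (N / 2)) a x‖ₑ ^ (rhoD d : ℝ) := by
        intro x
        have h1 : SS (fun i : Fin d => (i : ℕ) + 1) (Icc 1 N) a x =
            SS (fun i : Fin d => (i : ℕ) + 1) (dy N) a x +
            SS (fun i : Fin d => (i : ℕ) + 1) (Icc 1 (N / 2)) a x := by
          unfold SS
          rw [hun, Finset.sum_union hdis]
        rw [h1]
        simp only [ENNReal.rpow_natCast]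
        rw [← ofReal_norm, ← ofReal_norm, ← ofReal_norm, ← ENNReal.ofReal_pow (norm_nonneg _),
          ← ENNReal.ofReal_pow (norm_nonneg _), ← ENNReal.ofReal_pow (norm_nonneg _),
          ← ENNReal.ofReal_mul hc.le, ← ENNReal.ofReal_mul (by positivity),
          ← ENNReal.ofReal_add (by positivity) (by positivity)]
        refine ENNReal.ofReal_le_ofReal ?_
        refine le_trans ?_ (hcw _ _ (norm_nonneg _) (norm_nonneg _))
        gcongr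
        exact norm_add_le _ _
      have hmeas : ∀ S : Finset ℕ, Measurable
          (fun x => ‖SS (fun i : Fin d => (i : ℕ) + 1) S a x‖ₑ ^ (rhoD d : ℝ)) := fun S =>
        ((continuous_SS _ S a).measurable.enorm).pow_const _
      calc ∫⁻ x in Set.Icc (0 : Fin d → ℝ) (fun _ => δ),
          ‖SS (fun i : Fin d => (i : ℕ) + 1) (Icc 1 N) a x‖ₑ ^ (rhoD d : ℝ) ≤
          ∫⁻ x in Set.Icc (0 : Fin d → ℝ) (fun _ => δ),
            (ENNReal.ofReal c * ‖SS (fun i : Fin d => (i : ℕ) + 1) (dy N) a x‖ₑ ^ (rhoD d : ℝ) +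
          ENNReal.ofReal ((2 : ℝ) ^ (ε / 2)) *
            ‖SS (fun i : Fin d => (i : ℕ) + 1) (Icc 1 (N / 2)) a x‖ₑ ^ (rhoD d : ℝ)) :=
            lintegral_mono hpt
        _ = ENNReal.ofReal c * (∫⁻ x in Set.Icc (0 : Fin d → ℝ) (fun _ => δ),
              ‖SS (fun i : Fin d => (i : ℕ) + 1) (dy N) a x‖ₑ ^ (rhoD d : ℝ)) +
            ENNReal.ofReal ((2 : ℝ) ^ (ε / 2)) * (∫⁻ x in Set.Icc (0 : Fin d → ℝ) (fun _ => δ),
              ‖SS (fun i : Fin d => (i : ℕ) + 1) (Icc 1 (N / 2)) a x‖ₑ ^ (rhoD d : ℝ)) := by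
            rw [lintegral_add_left ((hmeas _).const_mul _), lintegral_const_mul _ (hmeas _),
              lintegral_const_mul _ (hmeas _)]
        _ ≤ ENNReal.ofReal c * ENNReal.ofReal (K * (N : ℝ) ^ ε * δ ^ (((d : ℝ) + 1) / 2) *
              A ^ ((rhoD d : ℝ) / 2)) +
            ENNReal.ofReal ((2 : ℝ) ^ (ε / 2)) * ENNReal.ofReal (C * ((N : ℝ) / 2) ^ ε *
              δ ^ (((d : ℝ) + 1) / 2) * A ^ ((rhoD d : ℝ) / 2)) := by
            refine add_le_add (mul_le_mul' le_rfl (hdy'.trans ?_))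
              (mul_le_mul' le_rfl (ih'.trans ?_))
            · refine ENNReal.ofReal_le_ofReal ?_
              have hA3 : 0 ≤ ∑ j ∈ dy N, ‖a j‖ ^ 2 := Finset.sum_nonneg fun _ _ => by positivity
              gcongr
            · refine ENNReal.ofReal_le_ofReal ?_
              have hA3 : 0 ≤ ∑ j ∈ Icc 1 (N / 2), ‖a j‖ ^ 2 :=
                Finset.sum_nonneg fun _ _ => by positivity
              have hN2 : ((N / 2 : ℕ) : ℝ) ≤ (N : ℝ) / 2 := Nat.cast_div_le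
              gcongr
        _ = ENNReal.ofReal (C * (N : ℝ) ^ ε * δ ^ (((d : ℝ) + 1) / 2) *
              A ^ ((rhoD d : ℝ) / 2)) := by
            rw [← ENNReal.ofReal_mul hc.le, ← ENNReal.ofReal_mul (by positivity),
              ← ENNReal.ofReal_add (by positivity) (by positivity)]
            congr 1
            rw [Real.div_rpow hN0.le (by norm_num)]
            have e1 : (2 : ℝ) ^ (ε / 2) / (2 : ℝ) ^ ε = (2 : ℝ) ^ (-(ε / 2)) := by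
              rw [← Real.rpow_sub (by norm_num)]
              congr 1
              ring
            calc c * (K * (N : ℝ) ^ ε * δ ^ (((d : ℝ) + 1) / 2) * A ^ ((rhoD d : ℝ) / 2)) +
                (2 : ℝ) ^ (ε / 2) * (C * ((N : ℝ) ^ ε / (2 : ℝ) ^ ε) * δ ^ (((d : ℝ) + 1) / 2) *
                  A ^ ((rhoD d : ℝ) / 2)) =
                (c * K + ((2 : ℝ) ^ (ε / 2) / (2 : ℝ) ^ ε) * C) * (N : ℝ) ^ ε *
                  δ ^ (((d : ℝ) + 1) / 2) * A ^ ((rhoD d : ℝ) / 2) := by ring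
              _ = _ := by rw [e1, hCeq]

end Pool.Agent.DL.Main
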